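import Pool.Agent.ASD.Stmts8
import Pool.Agent.ASD.Stmts3
import Pool.Agent.Helper32_ASO.HLNK
import Pool.Agent.Helper16_AT6.SMH
import Pool.Agent.Helper41_AT3.NIL
import Pool.Agent.Helper9_PP.Pbk

/-!
# Squad ASD, row KLD: the number of ordinary characters
-/

open scoped BigOperators

noncomputable section

namespace Pool.Agent.PP.SD.H77

open Pool.Agent.Helper51_AWC Pool.Agent.Helper79_WRA Pool.Agent.PP Pool.Agent.PP.KF
open Pool.Agent.PP.K9 Pool.Agent.PP.K9.H97 Pool.Agent.PP.H75 Pool.Agent.PP.T3 Pool.Agent.PP.SO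

attribute [local instance] Ideal.Quotient.field

section tr

variable {G F : Type} [Group G]

theorem ix_tr {X Y : Subgroup G} (h : X = Y) (V : Subgroup G) (g : G → F) :
    ix (V.subgroupOf X) (fun t : X => g t) = ix (V.subgroupOf Y) (fun t : Y => g t) := by
  subst h
  rfl

theorem ln_tr [Field F] {X Y : Subgroup G} (h : X = Y) (b : G → F) :
    ln (fun t : X => b t) = ln (fun t : Y => b t) := by
  subst h
  rfl

theorem cu_one : Cu (1 : G) = ⊤ := by
  rw [eq_top_iff]
  intro x _
  rw [Subgroup.mem_centralizer_singleton_iff]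
  simp

end tr

theorem kld (pml : PmlStmt) (lbd : SD.LbdStmt) (cpl : T6.CplStmt) (smg : T3.SmgStmt)
    (loc : T3.LocStmt) (lsb : T3.LsbStmt) (lfr : T8.LfrStmt) (k9 : K9.LbdStmt) : KldStmt := by
  classical
  intro ℓ hℓ M _ hM hl2 V₀ G _ _ _ _ E₀ hE B hB
  have hL : Ld ℓ B.e B.i.range B.g := hB.ld
  have hcV : Nat.card B.i.range = ℓ ^ 2 := by
    rw [← hE.cd]
    exact (Nat.card_congr (MonoidHom.ofInjective hB.inj).toEquiv).symm
  have hVle : ∀ W : Subgroup V₀, B.i.range ≤ B.C W := by
    intro W x hx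
    unfold Bk.C
    rw [Subgroup.mem_centralizer_iff]
    rintro y ⟨w, -, rfl⟩
    obtain ⟨v, rfl⟩ := hx
    rw [← map_mul, ← map_mul, mul_comm]
  refine ⟨?_, ?_⟩
  · have hF : GoodF ℓ (FF M) := H50.fld ℓ Fact.out M hM
    have := Fintype.ofFinite G
    have := Fintype.ofFinite V₀
    have hfin : (IrrE M B.e).Finite := K9.H25.irrE_finite M B.e
    have hfI : (Irr G).Finite := T3.H41.irrF G
    -- local blocks
    have hLc : ∀ v : V₀, Lc B.e B.i.range B.g (B.i v) (B.b (Subgroup.zpowers v)) := fun v =>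
      SO.H32.lc_of (SO.H32.C_zpowers B v) (hB.lb _).blk (hB.lb _).und (hB.lb _).gam
    have hb0 : ∀ v : G, ∃ b : G → FF M, v ∈ B.i.range → Lc B.e B.i.range B.g v b := by
      intro v
      by_cases hv : v ∈ B.i.range
      · obtain ⟨w, rfl⟩ := hv
        exact ⟨_, fun _ => hLc w⟩
      · exact ⟨0, fun h => absurd h hv⟩
    choose b hb using hb0
    have hbi : ∀ v : V₀, b (B.i v) = B.b (Subgroup.zpowers v) := fun v =>
      (loc ℓ (FF M) hF G B.e B.i.range B.g hL _ ⟨v, rfl⟩).2 _ _ (hb _ ⟨v, rfl⟩) (hLc v)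
    have hcpl := cpl ℓ M hM G B.e B.i.range B.g hL b hb
    -- the index
    have hrel : ∀ v : V₀, (Subgroup.centralizer (B.i.range : Set G)).relIndex
        (Tg B.i.range B.g ⊓ Cu (B.i v)) = Nat.card (Es E₀ v) := by
      intro v
      obtain ⟨-, h1, -⟩ := lsb ℓ M hM G B.e B.i.range B.g hL _ ⟨v, rfl⟩ _ (hLc v)
      have h2 := (lbd ℓ M hM V₀ G E₀ hE B hB (Subgroup.zpowers v)).2.1
      rw [ix_tr (SO.H32.C_zpowers B v), h1] at h2
      rw [h2]
      have h3 : St E₀ (Subgroup.zpowers v) = Es E₀ v := by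
        ext σ
        constructor
        · rintro ⟨h4, h5⟩
          exact ⟨h4, h5 v (Subgroup.mem_zpowers v)⟩
        · rintro ⟨h4, h5⟩
          refine ⟨h4, ?_⟩
          rintro w ⟨k, rfl⟩
          show σ (v ^ k) = v ^ k
          rw [map_zpow, h5]
      rw [h3]
    have hix : ix B.i.range B.g = Nat.card E₀ := by
      have h1 := hrel 1
      rw [map_one, cu_one, inf_top_eq] at h1
      have h3 : Es E₀ (1 : V₀) = E₀ := by
        ext σ
        constructor
        · rintro ⟨h4, -⟩
          exact h4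
        · intro h4
          exact ⟨h4, map_one σ⟩
      rw [h3] at h1
      exact h1
    -- the diagonal entries
    have hPm : ∀ v : V₀, ∑ χ ∈ hfin.toFinset, T6.Pm M ℓ (B.i v) (b (B.i v)) χ χ =
        (ln (fun t : B.C (Subgroup.zpowers v) => B.b (Subgroup.zpowers v) t) : ℂ) := by
      intro v
      have hel : El ℓ (B.i v) := by
        obtain ⟨k, hk⟩ := hL.tp.pg ⟨B.i v, ⟨v, rfl⟩⟩
        exact ⟨k, by simpa using congrArg Subtype.val hk⟩
      have hLv := hLc v
      have h1 := pml ℓ M hM G (B.i v) hel _ hLv.blk.ix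
      rw [ln_tr (SO.H32.C_zpowers B v), ← h1, finsum_mem_eq_finite_toFinset_sum _ hfI, hbi]
      refine Finset.sum_subset ?_ ?_
      · intro χ hχ
        rw [Set.Finite.mem_toFinset] at hχ ⊢
        exact hχ.1
      · intro χ hχ1 hχ2
        rw [Set.Finite.mem_toFinset] at hχ1 hχ2
        unfold T6.Pm
        rw [finsum_eq_zero_of_forall_eq_zero, mul_zero]
        intro s
        by_cases hs : s ∈ Cu (B.i v) ∧ Reg ℓ s
        · have h2 : gv M (Cu (B.i v)) (B.i v * s) (B.b (Subgroup.zpowers v)) χ = 0 := by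
            by_cases hv : v = 1
            · have hbe : B.b (Subgroup.zpowers v) = B.e := by
                subst hv
                have hsupp : ∀ x, x ∉ Cu (1 : G) → B.e x = 0 := by
                  intro x hx
                  exact absurd (by rw [cu_one]; exact Subgroup.mem_top x) hx
                obtain ⟨φ, hφ⟩ : ∃ φ : Cu (1 : G) ≃* G, ∀ t : Cu (1 : G), φ t = (t : G) :=
                  ⟨(MulEquiv.subgroupCongr cu_one).trans Subgroup.topEquiv, fun t => rfl⟩
                have hblk : IsBlk (fun t : Cu (1 : G) => B.e t) := by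
                  have h1 := H9.blk_tr φ hL.blk
                  have h2 : (fun x : Cu (1 : G) => B.e (φ x)) =
                      fun t : Cu (1 : G) => B.e t := by
                    funext x
                    rw [hφ]
                  rw [h2] at h1
                  exact h1
                have hLe : Lc B.e B.i.range B.g 1 B.e := ⟨⟨hsupp, hblk⟩, hblk.1.2, hL.und⟩
                have hL1 := hLc 1
                rw [map_one] at hL1
                exact (loc ℓ (FF M) hF G B.e B.i.range B.g hL 1 B.i.range.one_mem).2 _ _ hL1 hLe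
              rw [hbe, hv, map_one, one_mul, T6.H16.gv_one B.e hL.blk.1.1]
              exact (T6.H16.fv_eh B.e hχ1 s).2 hχ2
            · have hv' : B.i v ≠ 1 := fun h => hv (hB.inj (by rw [h, map_one]))
              exact (smg ℓ M hM G (B.i v) s hv' hel hs.1 hs.2
                (fun t : Cu (B.i v) => B.b (Subgroup.zpowers v) t) hLv.blk.ix.idem B.e
                hL.blk.1).1 hLv.und χ hχ1 hχ2
          rw [finsum_eq_if, h2, zero_mul]
          exact if_pos hs
        · rw [finsum_eq_if]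
          exact if_neg hs
    -- the sum over the characters
    have h1 : ∑ χ ∈ hfin.toFinset, ∑ᶠ (v : G) (_ : v ∈ B.i.range),
        T6.Mm M ℓ B.i.range B.g v (b v) χ χ =
        (IrrE M B.e).ncard * ((Nat.card B.i.range : ℂ) * ix B.i.range B.g) := by
      rw [Finset.sum_congr rfl fun χ hχ => hcpl χ (hfin.mem_toFinset.1 hχ), Finset.sum_const,
        nsmul_eq_mul, ← Set.ncard_eq_toFinset_card _ hfin]
    have h2 : ∀ χ : G → ℂ, ∑ᶠ (v : G) (_ : v ∈ B.i.range),
        T6.Mm M ℓ B.i.range B.g v (b v) χ χ =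
        ∑ v : V₀, T6.Mm M ℓ B.i.range B.g (B.i v) (b (B.i v)) χ χ := by
      intro χ
      rw [← finsum_eq_sum_of_fintype]
      exact finsum_mem_range (f := fun v : G => T6.Mm M ℓ B.i.range B.g v (b v) χ χ) hB.inj
    have h3 : ∑ χ ∈ hfin.toFinset, ∑ᶠ (v : G) (_ : v ∈ B.i.range),
        T6.Mm M ℓ B.i.range B.g v (b v) χ χ =
        ∑ v : V₀, (Nat.card B.i.range : ℂ) * (Nat.card (Es E₀ v) *
          ln (fun t : B.C (Subgroup.zpowers v) => B.b (Subgroup.zpowers v) t)) := by
      rw [Finset.sum_congr rfl fun χ _ => h2 χ, Finset.sum_comm]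
      refine Finset.sum_congr rfl fun v _ => ?_
      unfold T6.Mm
      rw [← Finset.mul_sum, hPm v, hrel v, mul_assoc]
    rw [h1, ← Finset.mul_sum, hix] at h3
    have hV0 : (Nat.card B.i.range : ℂ) ≠ 0 := by exact_mod_cast Nat.card_pos.ne'
    have h4 : (Nat.card B.i.range : ℂ) * (Nat.card E₀ * (IrrE M B.e).ncard) =
        (Nat.card B.i.range : ℂ) * ∑ v : V₀, ((Nat.card (Es E₀ v) : ℂ) *
          ln (fun t : B.C (Subgroup.zpowers v) => B.b (Subgroup.zpowers v) t)) := by
      rw [← h3]
      ring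
    have h5 := mul_left_cancel₀ hV0 h4
    rw [finsum_eq_sum_of_fintype]
    exact_mod_cast h5
  · intro W hW
    obtain ⟨hLC, -, hix⟩ := lbd ℓ M hM V₀ G E₀ hE B hB W
    have hix1 := hix hW
    apply le_antisymm
    · rw [← hix1]
      refine lfr ℓ M hM hl2 (B.C W) _ _ _ hLC ?_ ?_
      · intro h
        have h1 : B.i.range = ⊥ := by
          rw [Subgroup.subgroupOf_eq_bot, disjoint_iff, inf_eq_left.2 (hVle W)] at h
          exact h
        rw [h1, Subgroup.card_bot] at hcV
        have h2 : 1 < ℓ := (Fact.out : ℓ.Prime).one_lt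
        nlinarith
      · intro t ht w _ _ _
        exact Subgroup.relIndex_eq_one.1 hix1 ht
    · exact (k9 ℓ M hM (B.C W) _ hLC.blk.1 hLC.blk.2.1).1

end Pool.Agent.PP.SD.H77
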