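import Pool.Agent.ASD.Stmts5
import Pool.Agent.ASD.Stmts3
import Pool.Agent.Helper9_ASO.MBI

/-!
# Squad ASD, row F2C: the part of `F₁₂` with `pL = A₂`
-/

open scoped BigOperators

noncomputable section

namespace Pool.Agent.PP.SD.H77

open Pool.Agent.Helper51_AWC Pool.Agent.Helper79_WRA Pool.Agent.PP Pool.Agent.PP.KF
open Pool.Agent.PP.K9 Pool.Agent.PP.K9.H97 Pool.Agent.PP.H75 Pool.Agent.PP.T3 Pool.Agent.PP.SO

attribute [local instance] Ideal.Quotient.field

/-- the Möbius transform is zero if `F` does not depend on an element -/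
theorem mob_zero {A : Type} [Finite A] (F : Set A → ℚ) (L : Set A) (s₀ : A) (h₀ : s₀ ∈ L)
    (hF : ∀ T ⊆ L, s₀ ∉ T → F (insert s₀ T) = F T) : mob F L = 0 := by
  classical
  have := Fintype.ofFinite A
  rw [SO.H9.mob_eq]
  have hsub : ∀ T : Set A, T ⊆ L → s₀ ∉ T →
      (L \ T).ncard = (L \ insert s₀ T).ncard + 1 := by
    intro T _ hs
    have h1 : L \ T = insert s₀ (L \ insert s₀ T) := by
      ext x
      constructor
      · rintro ⟨hx, hx'⟩
        by_cases h : x = s₀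
        · exact Or.inl h
        · exact Or.inr ⟨hx, fun h' => h'.elim h hx'⟩
      · rintro (rfl | ⟨hx, hx'⟩)
        · exact ⟨h₀, hs⟩
        · exact ⟨hx, fun h' => hx' (Or.inr h')⟩
    rw [h1, Set.ncard_insert_of_notMem (fun h => h.2 (Or.inl rfl)) (Set.toFinite _)]
  refine Finset.sum_involution (fun T _ => if s₀ ∈ T then T \ {s₀} else insert s₀ T)
    ?_ ?_ ?_ ?_
  · intro T hT
    have hT' := (Finset.mem_filter.1 hT).2
    by_cases hs : s₀ ∈ T
    · simp only [if_pos hs]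
      have h2 : insert s₀ (T \ {s₀}) = T := by
        rw [Set.insert_sdiff_singleton, Set.insert_eq_of_mem hs]
      have h3 : s₀ ∉ T \ {s₀} := fun h => h.2 rfl
      have h4 := hsub (T \ {s₀}) (Set.sdiff_subset.trans hT') h3
      have h5 := hF (T \ {s₀}) (Set.sdiff_subset.trans hT') h3
      rw [h2] at h4 h5
      rw [h4, h5, pow_succ]
      ring
    · simp only [if_neg hs]
      have h4 := hsub T hT' hs
      rw [h4, hF T hT' hs, pow_succ]
      ring
  · intro T _ _ h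
    by_cases hs : s₀ ∈ T
    · simp only [if_pos hs] at h
      have : s₀ ∈ T \ {s₀} := by rw [h]; exact hs
      exact this.2 rfl
    · simp only [if_neg hs] at h
      exact hs (by rw [← h]; exact Or.inl rfl)
  · intro T hT
    have hT' := (Finset.mem_filter.1 hT).2
    refine Finset.mem_filter.2 ⟨Finset.mem_univ _, ?_⟩
    by_cases hs : s₀ ∈ T
    · simp only [if_pos hs]
      exact Set.sdiff_subset.trans hT'
    · simp only [if_neg hs]
      exact Set.insert_subset h₀ hT'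
  · intro T _
    by_cases hs : s₀ ∈ T
    · have h3 : s₀ ∉ T \ {s₀} := fun h => h.2 rfl
      simp only [if_pos hs, if_neg h3]
      rw [Set.insert_sdiff_singleton, Set.insert_eq_of_mem hs]
    · have h3 : s₀ ∈ insert s₀ T := Or.inl rfl
      simp only [if_neg hs, if_pos h3]
      ext x
      constructor
      · rintro ⟨hx | hx, hx'⟩
        · exact absurd hx hx'
        · exact hx
      · intro hx
        exact ⟨Or.inr hx, fun h => hs (by rw [← (h : x = s₀)]; exact hx)⟩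

theorem f2c (dix : DixStmt) (w2a : W2aStmt) : F2cStmt := by
  intro ℓ _ M _ hM hℓ V₀ G _ _ _ _ E₀ A₁ A₂ hD B hB n m hn c d hc hd hc1 hd1 F v hnf hf
  obtain ⟨-, ⟨-, hA2, -⟩, hcy, -⟩ := dix ℓ V₀ E₀ A₁ A₂ hD
  have hck := (hcy c hc hc1).1
  have hdk := (hcy d hd hd1).1
  have hle : ¬ A₂ ≤ A₁ := by
    intro h
    apply hA2
    rw [← hD.ds]
    exact (inf_eq_right.2 h).symm
  have hkc : kf E₀ A₂ c = (kE E₀ c : ℚ)⁻¹ := by
    unfold kf
    rw [hck, if_neg hle]
  have hkd : kf E₀ A₂ d = (kE E₀ d : ℚ)⁻¹ := by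
    unfold kf
    rw [hdk, if_neg hle]
  -- the group `qL`
  have hq : ∀ L : Set (SO.SS n V₀), pL L = A₂ → ∀ σ ∈ EL E₀ L, qL L = A₂ := by
    intro L hp σ hσ
    have h1 : (qL L).map (σ : V₀ →* V₀) = pL L := by
      unfold qL pL
      rw [MonoidHom.map_closure]
      congr 1
      ext x
      constructor
      · rintro ⟨y, ⟨s, hs, rfl⟩, rfl⟩
        exact ⟨s, hs, (hσ.2 s hs).symm⟩
      · rintro ⟨s, hs, rfl⟩
        exact ⟨s.2.2.2, ⟨s, hs, rfl⟩, hσ.2 s hs⟩
    rw [hp] at h1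
    apply le_antisymm
    · intro x hx
      have h2 : σ x ∈ A₂ := by
        rw [← h1]
        exact ⟨x, hx, rfl⟩
      have h3 := hD.s2 σ⁻¹ (E₀.inv_mem hσ.1) _ h2
      rwa [MulAut.inv_apply_self] at h3
    · intro x hx
      have h2 : σ x ∈ (qL L).map (σ : V₀ →* V₀) := by
        rw [h1]
        exact hD.s2 σ hσ.1 x hx
      obtain ⟨y, hy, hxy⟩ := h2
      have : y = x := σ.injective hxy
      rw [← this]
      exact hy
  -- the Möbius transform
  have hm : ∀ L : Set (SO.SS n V₀), pL L = A₂ → qL L = A₂ →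
      ¬ (∀ s ∈ L, (s.1 : ℕ) = 0 ∧ (s.2.1 : ℕ) = 0) → mob F L = 0 := by
    intro L hp hqq hne
    push Not at hne
    obtain ⟨s₀, h₀, hs₀⟩ := hne
    refine mob_zero F L s₀ h₀ fun T hT _ => ?_
    have hmem : ∀ s ∈ L, s.2.2.1 ∈ A₂ ∧ s.2.2.2 ∈ A₂ := by
      intro s hs
      refine ⟨?_, ?_⟩
      · rw [← hp]
        exact Subgroup.subset_closure ⟨s, hs, rfl⟩
      · rw [← hqq]
        exact Subgroup.subset_closure ⟨s, hs, rfl⟩
    have hins : ∀ s ∈ insert s₀ T, s.2.2.1 ∈ A₂ ∧ s.2.2.2 ∈ A₂ := by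
      rintro s (rfl | hs)
      · exact hmem _ h₀
      · exact hmem _ (hT hs)
    by_cases hfr : Fre T
    · have h1 : Fre (insert s₀ T) := by
        rintro s (rfl | hs) hi hk
        · exact absurd hk (hs₀ hi)
        · exact hfr s hs hi hk
      rw [hf _ h1 hins, hf _ hfr fun s hs => hmem _ (hT hs)]
    · have h1 : ¬ Fre (insert s₀ T) := fun h => hfr fun s hs hi hk => h s (Or.inr hs) hi hk
      rw [hnf _ h1, hnf _ hfr]
  -- the sums
  unfold AX3
  classical
  have := Fintype.ofFinite (Set (SO.SS n V₀))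
  rw [finsum_eq_sum_of_fintype, finsum_eq_sum_of_fintype, Finset.mul_sum]
  refine Finset.sum_congr rfl fun L _ => ?_
  rw [finsum_eq_if, finsum_eq_if]
  by_cases hp : pL L = A₂
  · rw [if_pos (show L ∈ {L : Set (SO.SS n V₀) | pL L = A₂} from hp)]
    have hW := (w2a ℓ M hM hℓ V₀ G E₀ hD.toFq B hB n m hn c d L).2.1 (by rw [hp]; exact hA2)
    by_cases hE : EL E₀ L = ∅
    · rw [hW hE]
      simp
    · obtain ⟨σ, hσ⟩ := Set.nonempty_iff_ne_empty.2 hE
      have hqq := hq L hp σ hσ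
      by_cases ha : ∀ s ∈ L, (s.1 : ℕ) = 0 ∧ (s.2.1 : ℕ) = 0
      · rw [if_pos (show L ∈ {L : Set (SO.SS n V₀) | pL L = A₂ ∧ qL L = A₂ ∧
          ∀ s ∈ L, (s.1 : ℕ) = 0 ∧ (s.2.1 : ℕ) = 0} from ⟨hp, hqq, ha⟩), hp, hqq, hkc, hkd]
        push_cast
        rw [mul_inv]
        ring
      · rw [hm L hp hqq ha]
        simp
  · rw [if_neg (show L ∉ {L : Set (SO.SS n V₀) | pL L = A₂} from hp),
      if_neg (show L ∉ {L : Set (SO.SS n V₀) | pL L = A₂ ∧ qL L = A₂ ∧
          ∀ s ∈ L, (s.1 : ℕ) = 0 ∧ (s.2.1 : ℕ) = 0} from fun h => hp h.1), mul_zero]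

end Pool.Agent.PP.SD.H77
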